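import Pool.Agent.H14.TA.CubeStmts

/-!
# The infinite cube is a CAT(0) cube complex (modules ICV, ICF, ICA, ICL, ICS, ICD, ACT)
-/

namespace TA

namespace H47

variable {Ω : Type} [DecidableEq Ω]

theorem mem_sd {A B : Finset Ω} {x : Ω} : x ∈ symmDiff A B ↔ ¬ (x ∈ A ↔ x ∈ B) := by
  rw [Finset.mem_symmDiff]
  tauto

theorem mem_icubes {C : Set (Finset Ω)} :
    C ∈ icubes Ω ↔ ∃ A F : Finset Ω, C = {B | symmDiff A B ⊆ F} := by
  constructor
  · rintro ⟨A, F, hd, rfl⟩
    refine ⟨A, F, ?_⟩
    ext B
    simp only [Set.mem_ofPred_eq]
    constructor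
    · rintro ⟨h1, h2⟩ x hx
      rw [mem_sd] at hx
      by_cases hA : x ∈ A
      · exact absurd ⟨fun _ => h1 hA, fun _ => hA⟩ hx
      · have hB : x ∈ B := by
          by_contra hB
          exact hx ⟨fun h => absurd h hA, fun h => absurd h hB⟩
        rcases Finset.mem_union.1 (h2 hB) with h | h
        · exact absurd h hA
        · exact h
    · intro h
      constructor
      · intro x hx
        by_contra hB
        have : x ∈ F := h (mem_sd.2 (fun h' => hB (h'.1 hx)))
        exact Finset.disjoint_left.1 hd hx this
      · intro x hx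
        by_cases hA : x ∈ A
        · exact Finset.mem_union_left _ hA
        · exact Finset.mem_union_right _ (h (mem_sd.2 (fun h' => hA (h'.2 hx))))
  · rintro ⟨A, F, rfl⟩
    refine ⟨A \ F, F, Finset.sdiff_disjoint, ?_⟩
    ext B
    simp only [Set.mem_ofPred_eq, Finset.sdiff_union_self_eq_union]
    constructor
    · intro h
      constructor
      · intro x hx
        obtain ⟨h1, h2⟩ := Finset.mem_sdiff.1 hx
        by_contra hB
        exact h2 (h (mem_sd.2 (fun h' => hB (h'.1 h1))))
      · intro x hx
        by_cases hA : x ∈ A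
        · exact Finset.mem_union_left _ hA
        · exact Finset.mem_union_right _ (h (mem_sd.2 (fun h' => hA (h'.2 hx))))
    · rintro ⟨h1, h2⟩ x hx
      by_contra hF
      rw [mem_sd] at hx
      apply hx
      constructor
      · intro hA
        exact h1 (Finset.mem_sdiff.2 ⟨hA, hF⟩)
      · intro hB
        rcases Finset.mem_union.1 (h2 hB) with h | h
        · exact h
        · exact absurd h hF

theorem sd_flip_ne (A : Finset Ω) (x : Ω) : A ≠ symmDiff A {x} := by
  intro h
  have := congrArg (fun s => symmDiff A s) h
  simp only [symmDiff_self, symmDiff_symmDiff_cancel_left] at this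
  exact absurd (this ▸ Finset.mem_singleton_self x : x ∈ (⊥ : Finset Ω)) (Finset.notMem_empty x)

end H47

open H47

/-- Module `ICV`. -/
theorem icv : S_ICV := by
  intro Ω _
  constructor
  · intro v
    refine mem_icubes.2 ⟨v, ∅, ?_⟩
    ext B
    simp only [Set.mem_singleton_iff, Set.mem_ofPred_eq, Finset.subset_empty]
    constructor
    · rintro rfl
      exact symmDiff_self _
    · intro h
      exact (symmDiff_eq_bot.1 h).symm
  · rintro C ⟨A, F, hd, rfl⟩ D ⟨A', F', hd', rfl⟩ ⟨B0, ⟨h1, h2⟩, ⟨h3, h4⟩⟩
    refine ⟨A ∪ A', ((A ∪ F) ∩ (A' ∪ F')) \ (A ∪ A'), Finset.disjoint_sdiff, ?_⟩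
    have hsub : A ∪ A' ⊆ (A ∪ F) ∩ (A' ∪ F') := by
      apply Finset.union_subset
      · exact Finset.subset_inter Finset.subset_union_left (h1.trans h4)
      · exact Finset.subset_inter (h3.trans h2) Finset.subset_union_left
    ext B
    simp only [Set.mem_inter_iff, Set.mem_ofPred_eq, Finset.union_sdiff_of_subset hsub]
    constructor
    · rintro ⟨⟨g1, g2⟩, ⟨g3, g4⟩⟩
      exact ⟨Finset.union_subset g1 g3, Finset.subset_inter g2 g4⟩
    · rintro ⟨g1, g2⟩
      exact ⟨⟨Finset.subset_union_left.trans g1, g2.trans Finset.inter_subset_left⟩,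
        ⟨Finset.subset_union_right.trans g1, g2.trans Finset.inter_subset_right⟩⟩

/-- Module `ICF`. -/
theorem icf : S_ICF := by
  intro Ω _ C hC
  obtain ⟨A, F, hd, rfl⟩ := hC
  set φ : Fin F.card → Ω := fun i => (F.equivFin.symm i : Ω) with hφ
  have hφF : ∀ i, φ i ∈ F := fun i => (F.equivFin.symm i).2
  have hφA : ∀ i, φ i ∉ A := fun i h => Finset.disjoint_left.1 hd h (hφF i)
  have hφi : Function.Injective φ := fun i j h => F.equivFin.symm.injective (Subtype.ext h)
  have hφs : ∀ x ∈ F, ∃ i, φ i = x := fun x hx => ⟨F.equivFin ⟨x, hx⟩, by simp [hφ]⟩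
  set e : (Fin F.card → Bool) → Finset Ω := fun f =>
    A ∪ (Finset.univ.filter (fun i => f i = true)).image φ with he
  have hmem : ∀ f x, x ∈ e f ↔ x ∈ A ∨ ∃ i, f i = true ∧ φ i = x := by
    intro f x
    simp [he]
  have hmemφ : ∀ f i, φ i ∈ e f ↔ f i = true := by
    intro f i
    rw [hmem]
    constructor
    · rintro (h | ⟨j, hj, hji⟩)
      · exact absurd h (hφA i)
      · rwa [← hφi hji]
    · intro h
      exact Or.inr ⟨i, h, rfl⟩
  have hrange : ∀ B : Finset Ω, A ⊆ B → B ⊆ A ∪ F → e (fun i => decide (φ i ∈ B)) = B := by
    intro B h1 h2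
    ext x
    rw [hmem]
    constructor
    · rintro (h | ⟨i, hi, rfl⟩)
      · exact h1 h
      · exact of_decide_eq_true hi
    · intro h
      rcases Finset.mem_union.1 (h2 h) with h' | h'
      · exact Or.inl h'
      · obtain ⟨i, rfl⟩ := hφs x h'
        exact Or.inr ⟨i, decide_eq_true h, rfl⟩
  have hin : ∀ f, A ⊆ e f ∧ e f ⊆ A ∪ F := by
    intro f
    constructor
    · intro x hx
      exact (hmem f x).2 (Or.inl hx)
    · intro x hx
      rcases (hmem f x).1 hx with h | ⟨i, -, rfl⟩
      · exact Finset.mem_union_left _ h
      · exact Finset.mem_union_right _ (hφF i)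
  refine ⟨F.card, e, ?_, ?_, ?_⟩
  · intro f g hfg
    funext i
    have h1 := hmemφ f i
    rw [hfg, hmemφ] at h1
    cases hf : f i <;> cases hg : g i <;> simp_all
  · ext B
    simp only [Set.mem_range, Set.mem_ofPred_eq]
    constructor
    · rintro ⟨f, rfl⟩
      exact hin f
    · rintro ⟨h1, h2⟩
      exact ⟨_, hrange B h1 h2⟩
  · intro D
    constructor
    · rintro ⟨⟨A', F', hd', rfl⟩, hsub⟩
      have hA' := hsub (show A' ∈ {B | A' ⊆ B ∧ B ⊆ A' ∪ F'} from
        ⟨Finset.Subset.refl _, Finset.subset_union_left⟩)
      have hF' := hsub (show A' ∪ F' ∈ {B | A' ⊆ B ∧ B ⊆ A' ∪ F'} from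
        ⟨Finset.subset_union_left, Finset.Subset.refl _⟩)
      simp only [Set.mem_ofPred_eq] at hA' hF'
      refine ⟨fun i => if φ i ∈ A' then some true else if φ i ∈ F' then none else some false, ?_⟩
      ext B
      simp only [Set.mem_ofPred_eq, Set.mem_image, stdFace]
      constructor
      · rintro ⟨h1, h2⟩
        refine ⟨fun i => decide (φ i ∈ B), ?_, hrange B (hA'.1.trans h1) (h2.trans hF'.2)⟩
        intro i b hb
        by_cases g1 : φ i ∈ A'
        · rw [if_pos g1] at hb
          have : b = true := by simpa using hb.symm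
          rw [this]
          exact decide_eq_true (h1 g1)
        · rw [if_neg g1] at hb
          by_cases g2 : φ i ∈ F'
          · rw [if_pos g2] at hb
            exact absurd hb (by simp)
          · rw [if_neg g2] at hb
            have : b = false := by simpa using hb.symm
            rw [this]
            apply decide_eq_false
            intro h
            rcases Finset.mem_union.1 (h2 h) with h' | h'
            · exact g1 h'
            · exact g2 h'
      · rintro ⟨f, hf, rfl⟩
        constructor
        · intro x hx
          rcases Finset.mem_union.1 (hA'.2 hx) with h | h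
          · exact (hin f).1 h
          · obtain ⟨i, rfl⟩ := hφs x h
            exact (hmemφ f i).2 (hf i true (if_pos hx))
        · intro x hx
          rcases (hmem f x).1 hx with h | ⟨i, hi, rfl⟩
          · exact Finset.mem_union_left _ (hA'.1 h)
          · by_contra hne
            rw [Finset.mem_union, not_or] at hne
            have := hf i false (by rw [if_neg hne.1, if_neg hne.2])
            rw [this] at hi
            exact absurd hi (by simp)
    · rintro ⟨p, rfl⟩
      refine ⟨⟨A ∪ (Finset.univ.filter (fun i => p i = some true)).image φ,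
        (Finset.univ.filter (fun i => p i = none)).image φ, ?_, ?_⟩, ?_⟩
      · rw [Finset.disjoint_left]
        intro x hx hx'
        simp only [Finset.mem_union, Finset.mem_image, Finset.mem_filter, Finset.mem_univ,
          true_and] at hx hx'
        obtain ⟨j, hj, rfl⟩ := hx'
        rcases hx with h | ⟨i, hi, hij⟩
        · exact hφA j h
        · rw [hφi hij, hj] at hi
          exact absurd hi (by simp)
      · ext B
        simp only [Set.mem_ofPred_eq, Set.mem_image, stdFace]
        constructor
        · rintro ⟨f, hf, rfl⟩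
          constructor
          · intro x hx
            simp only [Finset.mem_union, Finset.mem_image, Finset.mem_filter, Finset.mem_univ,
              true_and] at hx
            rcases hx with h | ⟨i, hi, rfl⟩
            · exact (hin f).1 h
            · exact (hmemφ f i).2 (hf i true hi)
          · intro x hx
            simp only [Finset.mem_union, Finset.mem_image, Finset.mem_filter, Finset.mem_univ,
              true_and]
            rcases (hmem f x).1 hx with h | ⟨i, hi, rfl⟩
            · exact Or.inl (Or.inl h)
            · cases hp : p i with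
              | none => exact Or.inr ⟨i, hp, rfl⟩
              | some b =>
                have := hf i b hp
                rw [this] at hi
                rw [hi] at hp
                exact Or.inl (Or.inr ⟨i, hp, rfl⟩)
        · rintro ⟨h1, h2⟩
          have g1 : A ⊆ B := Finset.subset_union_left.trans h1
          have g2 : B ⊆ A ∪ F := by
            intro x hx
            have := h2 hx
            simp only [Finset.mem_union, Finset.mem_image, Finset.mem_filter, Finset.mem_univ,
              true_and] at this
            rcases this with (h | ⟨i, -, rfl⟩) | ⟨i, -, rfl⟩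
            · exact Finset.mem_union_left _ h
            · exact Finset.mem_union_right _ (hφF i)
            · exact Finset.mem_union_right _ (hφF i)
          refine ⟨fun i => decide (φ i ∈ B), ?_, hrange B g1 g2⟩
          intro i b hb
          cases b with
          | true =>
            apply decide_eq_true
            apply h1
            simp only [Finset.mem_union, Finset.mem_image, Finset.mem_filter, Finset.mem_univ,
              true_and]
            exact Or.inr ⟨i, hb, rfl⟩
          | false =>
            apply decide_eq_false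
            intro h
            have := h2 h
            simp only [Finset.mem_union, Finset.mem_image, Finset.mem_filter, Finset.mem_univ,
              true_and] at this
            rcases this with (h | ⟨j, hj, hji⟩) | ⟨j, hj, hji⟩
            · exact hφA i h
            · rw [hφi hji, hb] at hj
              exact absurd hj (by simp)
            · rw [hφi hji, hb] at hj
              exact absurd hj (by simp)
      · rintro B ⟨f, -, rfl⟩
        exact hin f

/-- Module `ICA`. -/
theorem ica : S_ICA := by
  intro Ω _
  constructor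
  · intro A B
    constructor
    · rintro ⟨hne, A', F', hd, heq⟩
      have hA' : A' ∈ ({A, B} : Set (Finset Ω)) := by
        rw [heq]; exact ⟨Finset.Subset.refl _, Finset.subset_union_left⟩
      have hF0 : F'.Nonempty := by
        rw [Finset.nonempty_iff_ne_empty]
        rintro rfl
        apply hne
        have h1 : A ∈ ({A, B} : Set (Finset Ω)) := by simp
        have h2 : B ∈ ({A, B} : Set (Finset Ω)) := by simp
        rw [heq] at h1 h2
        simp only [Finset.union_empty, Set.mem_ofPred_eq] at h1 h2
        rw [Finset.Subset.antisymm h1.2 h1.1, Finset.Subset.antisymm h2.2 h2.1]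
      obtain ⟨x, hx⟩ := hF0
      have hxA : x ∉ A' := fun h => Finset.disjoint_left.1 hd h hx
      have hB' : symmDiff A' {x} ∈ ({A, B} : Set (Finset Ω)) := by
        rw [heq]
        constructor
        · intro y hy
          rw [mem_sd, Finset.mem_singleton]
          rintro h
          rw [h.1 hy] at hy
          exact hxA hy
        · intro y hy
          rw [mem_sd, Finset.mem_singleton] at hy
          by_cases h : y ∈ A'
          · exact Finset.mem_union_left _ h
          · by_cases h' : y = x
            · rw [h']; exact Finset.mem_union_right _ hx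
            · exact absurd ⟨fun g => absurd g h, fun g => absurd g h'⟩ hy
      have hneA := sd_flip_ne A' x
      refine ⟨x, ?_⟩
      simp only [Set.mem_insert_iff, Set.mem_singleton_iff] at hA' hB'
      rcases hA' with h | h <;> rcases hB' with h' | h'
      · exact absurd (h.trans h'.symm) hneA
      · rw [← h, ← h']
      · rw [← h, ← h', symmDiff_symmDiff_cancel_right]
      · exact absurd (h.trans h'.symm) hneA
    · rintro ⟨x, rfl⟩
      refine ⟨sd_flip_ne A x, mem_icubes.2 ⟨A, {x}, ?_⟩⟩
      ext B
      simp only [Set.mem_insert_iff, Set.mem_singleton_iff, Set.mem_ofPred_eq,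
        Finset.subset_singleton_iff]
      constructor
      · rintro (rfl | rfl)
        · left; exact symmDiff_self _
        · right; exact symmDiff_symmDiff_cancel_left _ _
      · rintro (h | h)
        · left; exact (symmDiff_eq_bot.1 h).symm
        · right
          rw [← h, symmDiff_symmDiff_cancel_left]
  · intro A x y hxy
    refine mem_icubes.2 ⟨A, {x, y}, ?_⟩
    ext B
    simp only [Set.mem_insert_iff, Set.mem_singleton_iff, Set.mem_ofPred_eq]
    have key : ∀ G : Finset Ω, symmDiff A B = G ↔ B = symmDiff A G := by
      intro G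
      constructor
      · rintro rfl
        rw [symmDiff_symmDiff_cancel_left]
      · rintro rfl
        rw [symmDiff_symmDiff_cancel_left]
    have hxy' : symmDiff ({x} : Finset Ω) {y} = {x, y} := by
      ext t
      rw [mem_sd]
      simp only [Finset.mem_singleton, Finset.mem_insert]
      constructor
      · intro h
        by_contra hne
        rw [not_or] at hne
        exact h ⟨fun g => absurd g hne.1, fun g => absurd g hne.2⟩
      · rintro (rfl | rfl) h
        · exact hxy (h.1 rfl)
        · exact hxy (h.2 rfl).symm
    rw [symmDiff_assoc, hxy', ← key, ← key, ← key]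
    have h0 : B = A ↔ symmDiff A B = ∅ := by
      rw [key, ← Finset.bot_eq_empty, symmDiff_bot]
    rw [h0]
    constructor
    · rintro (h | h | h | h) <;> rw [h] <;> simp
    · intro h
      by_cases hx : x ∈ symmDiff A B <;> by_cases hy : y ∈ symmDiff A B
      · right; right; left
        apply Finset.Subset.antisymm h
        intro t ht
        simp only [Finset.mem_insert, Finset.mem_singleton] at ht
        rcases ht with rfl | rfl
        · exact hx
        · exact hy
      · right; left
        ext t
        rw [Finset.mem_singleton]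
        constructor
        · intro ht
          rcases Finset.mem_insert.1 (h ht) with h' | h'
          · exact h'
          · rw [Finset.mem_singleton] at h'
            rw [h'] at ht
            exact absurd ht hy
        · rintro rfl
          exact hx
      · right; right; right
        ext t
        rw [Finset.mem_singleton]
        constructor
        · intro ht
          rcases Finset.mem_insert.1 (h ht) with h' | h'
          · rw [h'] at ht
            exact absurd ht hx
          · rwa [Finset.mem_singleton] at h'
        · rintro rfl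
          exact hy
      · left
        rw [Finset.eq_empty_iff_forall_notMem]
        intro t ht
        rcases Finset.mem_insert.1 (h ht) with h' | h'
        · rw [h'] at ht
          exact hx ht
        · rw [Finset.mem_singleton] at h'
          rw [h'] at ht
          exact hy ht

/-- Module `ICL`. -/
theorem icl : S_ICL := by
  intro Ω _ v S hS hadj _
  have h1 : ∀ u ∈ S, ∃ x, u = symmDiff v {x} := fun u hu => ((ica Ω).1 v u).1 (hadj u hu)
  set F : Finset Ω := hS.toFinset.biUnion (fun u => symmDiff v u) with hF
  refine ⟨{B | symmDiff v B ⊆ F}, mem_icubes.2 ⟨v, F, rfl⟩, ?_, ?_⟩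
  · simp only [Set.mem_ofPred_eq, symmDiff_self]
    exact Finset.empty_subset _
  · ext u
    simp only [linkSimplex, Set.mem_ofPred_eq]
    constructor
    · rintro ⟨h2, h3⟩
      obtain ⟨x, rfl⟩ := ((ica Ω).1 v u).1 h3
      rw [symmDiff_symmDiff_cancel_left, Finset.singleton_subset_iff, hF, Finset.mem_biUnion] at h2
      obtain ⟨w, hw, hwx⟩ := h2
      rw [Set.Finite.mem_toFinset] at hw
      obtain ⟨y, hy⟩ := h1 w hw
      rw [hy, symmDiff_symmDiff_cancel_left, Finset.mem_singleton] at hwx
      rw [hwx, ← hy]
      exact hw
    · intro hu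
      refine ⟨?_, hadj u hu⟩
      intro x hx
      rw [hF, Finset.mem_biUnion]
      exact ⟨u, hS.mem_toFinset.2 hu, hx⟩

namespace H47

variable {Ω : Type} [DecidableEq Ω]

theorem adj_flip (A : Finset Ω) (x : Ω) : (skel (icubes Ω)).Adj A (symmDiff A {x}) :=
  ((ica Ω).1 A _).2 ⟨x, rfl⟩

/-- the path from `v` flipping the coordinates of the list one after the other -/
def pth (v : Finset Ω) : List Ω → List (Finset Ω)
  | [] => [v]
  | x :: xs => v :: pth (symmDiff v {x}) xs

/-- its end point -/
def endp (v : Finset Ω) : List Ω → Finset Ω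
  | [] => v
  | x :: xs => endp (symmDiff v {x}) xs

theorem pth_cons (v : Finset Ω) (xs : List Ω) : ∃ r, pth v xs = v :: r := by
  cases xs with
  | nil => exact ⟨[], rfl⟩
  | cons x xs => exact ⟨_, rfl⟩

theorem homot_ctx {V : Type*} {cubes : Set (Set V)} {l l' : List V} (h : Homot cubes l l')
    (a b : List V) : Homot cubes (a ++ l ++ b) (a ++ l' ++ b) := by
  induction h with
  | refl l => exact Homot.refl _
  | symm _ ih => exact ih.symm
  | trans _ _ ih1 ih2 => exact ih1.trans ih2
  | spur l r u v h =>
    have := Homot.spur (a ++ l) (r ++ b) u v h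
    simpa [List.append_assoc] using this
  | square l r u v w v' h1 h2 h3 h4 h5 h6 h7 =>
    have := Homot.square (a ++ l) (r ++ b) u v w v' h1 h2 h3 h4 h5 h6 h7
    simpa [List.append_assoc] using this

theorem homot_cons {V : Type*} {cubes : Set (Set V)} {l l' : List V} (h : Homot cubes l l')
    (a : V) : Homot cubes (a :: l) (a :: l') := by
  have := homot_ctx h [a] []
  simpa using this

theorem homot_swap (v : Finset Ω) {x y : Ω} (hxy : x ≠ y) (xs : List Ω) :
    Homot (icubes Ω) (pth v (x :: y :: xs)) (pth v (y :: x :: xs)) := by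
  have e : symmDiff (symmDiff v {y}) {x} = symmDiff (symmDiff v {x}) {y} := by
    rw [symmDiff_right_comm]
  simp only [pth]
  rw [e]
  obtain ⟨r, hr⟩ := pth_cons (symmDiff (symmDiff v {x}) {y}) xs
  rw [hr]
  have a4 : (skel (icubes Ω)).Adj (symmDiff v {y}) v := (adj_flip v y).symm
  have a3 : (skel (icubes Ω)).Adj (symmDiff (symmDiff v {x}) {y}) (symmDiff v {y}) := by
    rw [← e]
    exact (adj_flip _ x).symm
  have := Homot.square (cubes := icubes Ω) [] r v (symmDiff v {x})
    (symmDiff (symmDiff v {x}) {y}) (symmDiff v {y}) ((ica Ω).2 v x y hxy)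
    (adj_flip v x) (adj_flip _ y) a3 a4 ?_ ?_
  · simpa using this
  · intro h
    rw [symmDiff_assoc] at h
    have h1 : symmDiff ({x} : Finset Ω) {y} = ⊥ := by
      have := congrArg (fun s => symmDiff v s) h
      simpa using this.symm
    rw [symmDiff_eq_bot, Finset.singleton_inj] at h1
    exact hxy h1
  · intro h
    have := congrArg (fun s => symmDiff v s) h
    simp only [symmDiff_symmDiff_cancel_left, Finset.singleton_inj] at this
    exact hxy this

theorem homot_move (x : Ω) (bs : List Ω) : ∀ (as : List Ω) (v : Finset Ω), x ∉ as →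
    Homot (icubes Ω) (pth v (x :: (as ++ bs))) (pth v (as ++ x :: bs))
  | [], _, _ => Homot.refl _
  | a :: as, v, h => by
    rw [List.mem_cons, not_or] at h
    refine (homot_swap v h.1 (as ++ bs)).trans ?_
    exact homot_cons (homot_move x bs as (symmDiff v {a}) h.2) v

theorem homot_cancel (x : Ω) (bs : List Ω) : ∀ (as : List Ω) (v : Finset Ω),
    Homot (icubes Ω) (pth v (as ++ x :: x :: bs)) (pth v (as ++ bs))
  | [], v => by
    simp only [List.nil_append, pth, symmDiff_symmDiff_cancel_right]
    obtain ⟨r, hr⟩ := pth_cons v bs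
    rw [hr]
    have := Homot.spur (cubes := icubes Ω) [] r v (symmDiff v {x}) (adj_flip v x)
    simpa using this.symm
  | a :: as, v => homot_cons (homot_cancel x bs as (symmDiff v {a})) v

theorem endp_flip (x : Ω) : ∀ (as : List Ω) (v : Finset Ω),
    endp (symmDiff v {x}) as = symmDiff (endp v as) {x}
  | [], v => rfl
  | a :: as, v => by
    simp only [endp]
    rw [symmDiff_right_comm, endp_flip x as]

theorem endp_append (bs : List Ω) : ∀ (as : List Ω) (v : Finset Ω),
    endp v (as ++ bs) = endp (endp v as) bs
  | [], v => rfl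
  | a :: as, v => endp_append bs as _

theorem mem_endp (x : Ω) : ∀ (as : List Ω) (v : Finset Ω), x ∉ as → (x ∈ endp v as ↔ x ∈ v)
  | [], v, _ => Iff.rfl
  | a :: as, v, h => by
    rw [List.mem_cons, not_or] at h
    simp only [endp]
    rw [mem_endp x as _ h.2, mem_sd, Finset.mem_singleton]
    constructor
    · intro g
      by_contra hv
      exact g ⟨fun g' => absurd g' hv, fun g' => absurd g' h.1⟩
    · intro g g'
      exact h.1 (g'.1 g)

theorem homot_null : ∀ (n : ℕ) (xs : List Ω) (v : Finset Ω), xs.length = n → endp v xs = v →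
    Homot (icubes Ω) (pth v xs) [v] := by
  intro n
  induction n using Nat.strong_induction_on with
  | _ n ih =>
  intro xs v hn he
  cases xs with
  | nil => exact Homot.refl _
  | cons x ys =>
    have hx : x ∈ ys := by
      by_contra hx
      have h1 := mem_endp x ys (symmDiff v {x}) hx
      simp only [endp] at he
      rw [he, mem_sd, Finset.mem_singleton] at h1
      by_cases hv : x ∈ v
      · exact h1.1 hv ⟨fun _ => rfl, fun _ => hv⟩
      · exact hv (h1.2 (fun g => hv (g.2 rfl)))
    obtain ⟨as, bs, rfl, has⟩ := List.eq_append_cons_of_mem hx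
    have h1 := homot_move x (x :: bs) as v has
    have h2 := homot_cancel x bs as v
    refine h1.trans (h2.trans (ih (as ++ bs).length ?_ _ v rfl (Eq.trans ?_ he)))
    · rw [← hn]
      simp only [List.length_append, List.length_cons]
      omega
    · rw [endp_append]
      change _ = endp (symmDiff v {x}) (as ++ x :: bs)
      rw [endp_append, endp_flip]
      change _ = endp (symmDiff (symmDiff (endp v as) {x}) {x}) bs
      rw [symmDiff_symmDiff_cancel_right]

theorem chain_pth : ∀ (l : List (Finset Ω)) (v : Finset Ω),
    (v :: l).IsChain (skel (icubes Ω)).Adj → ∃ xs, v :: l = pth v xs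
  | [], v, _ => ⟨[], rfl⟩
  | w :: l, v, h => by
    rw [List.isChain_cons_cons] at h
    obtain ⟨x, rfl⟩ := ((ica Ω).1 v w).1 h.1
    obtain ⟨xs, hxs⟩ := chain_pth l _ h.2
    exact ⟨x :: xs, by rw [hxs]; rfl⟩

theorem last_pth : ∀ (xs : List Ω) (v : Finset Ω), (pth v xs).getLast? = some (endp v xs)
  | [], v => rfl
  | x :: xs, v => by
    obtain ⟨r, hr⟩ := pth_cons (symmDiff v {x}) xs
    have := last_pth xs (symmDiff v {x})
    simp only [pth, endp]
    rw [← this, hr, List.getLast?_cons_cons]

theorem exists_walk (F : Finset Ω) : ∀ A : Finset Ω,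
    ∃ p : (skel (icubes Ω)).Walk A (symmDiff A F), p.length = F.card := by
  induction F using Finset.induction_on with
  | empty =>
    intro A
    have h : symmDiff A ∅ = A := by rw [← Finset.bot_eq_empty, symmDiff_bot]
    rw [h]
    exact ⟨SimpleGraph.Walk.nil, rfl⟩
  | insert x F hx ih =>
    intro A
    obtain ⟨p, hp⟩ := ih (symmDiff A {x})
    have h : symmDiff (symmDiff A {x}) F = symmDiff A (insert x F) := by
      rw [symmDiff_assoc]
      congr 1
      ext t
      rw [mem_sd, Finset.mem_singleton, Finset.mem_insert]
      constructor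
      · intro g
        by_contra hne
        rw [not_or] at hne
        exact g ⟨fun g' => absurd g' hne.1, fun g' => absurd g' hne.2⟩
      · rintro (rfl | g) g'
        · exact hx (g'.1 rfl)
        · rw [g'.2 g] at g
          exact hx g
    rw [← h]
    exact ⟨SimpleGraph.Walk.cons (adj_flip A x) p, by
      rw [SimpleGraph.Walk.length_cons, hp, Finset.card_insert_of_notMem hx]⟩

theorem connected : (skel (icubes Ω)).Connected := by
  have : Nonempty (Finset Ω) := ⟨∅⟩
  refine ⟨fun A B => ?_⟩
  obtain ⟨p, -⟩ := exists_walk (symmDiff A B) A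
  rw [symmDiff_symmDiff_cancel_left] at p
  exact ⟨p⟩

theorem card_sd_le (A B : Finset Ω) : (symmDiff A B).card ≤ A.card + B.card := by
  calc (symmDiff A B).card ≤ (A ∪ B).card := Finset.card_le_card (by
        intro x hx
        rw [Finset.mem_symmDiff] at hx
        rw [Finset.mem_union]
        tauto)
    _ ≤ _ := Finset.card_union_le _ _

theorem card_le_walk : ∀ {A B : Finset Ω} (p : (skel (icubes Ω)).Walk A B),
    (symmDiff A B).card ≤ p.length
  | _, _, SimpleGraph.Walk.nil => by simp
  | A, B, SimpleGraph.Walk.cons (v := A') h p => by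
    obtain ⟨x, hx⟩ := ((ica Ω).1 A A').1 h
    have h1 := card_le_walk p
    have h2 : symmDiff A B = symmDiff {x} (symmDiff A' B) := by
      rw [hx, symmDiff_comm A {x}, symmDiff_assoc, symmDiff_symmDiff_cancel_left]
    have h3 := card_sd_le {x} (symmDiff A' B)
    rw [← h2, Finset.card_singleton] at h3
    rw [SimpleGraph.Walk.length_cons]
    omega

end H47

/-- Module `ICS`. -/
theorem ics : S_ICS := by
  intro Ω _
  refine ⟨connected, ?_⟩
  intro v l hl hlast
  obtain ⟨xs, hxs⟩ := chain_pth l v hl
  rw [hxs] at hlast ⊢
  rw [last_pth, Option.some_inj] at hlast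
  exact homot_null _ xs v rfl hlast

/-- Module `ICD`. -/
theorem icd : S_ICD := by
  intro Ω _ A B
  apply le_antisymm
  · obtain ⟨p, hp⟩ := exists_walk (symmDiff A B) A
    have h := (SimpleGraph.dist_le p).trans_eq hp
    rwa [symmDiff_symmDiff_cancel_left] at h
  · obtain ⟨p, hp⟩ := connected.exists_walk_length_eq_dist A B
    rw [← hp]
    exact card_le_walk p

namespace H47

variable {Γ : Type} [Group Γ] {Ω : Type} [DecidableEq Ω] [MulAction Γ Ω]

/-- the image of a finite set -/
def mvS (g : Γ) (A : Finset Ω) : Finset Ω := A.image (fun w => g • w)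

theorem mem_mvS {g : Γ} {A : Finset Ω} {x : Ω} : x ∈ mvS g A ↔ g⁻¹ • x ∈ A := by
  simp only [mvS, Finset.mem_image]
  constructor
  · rintro ⟨w, hw, rfl⟩
    rwa [inv_smul_smul]
  · intro h
    exact ⟨_, h, smul_inv_smul _ _⟩

theorem mvS_sd (g : Γ) (A B : Finset Ω) : mvS g (symmDiff A B) = symmDiff (mvS g A) (mvS g B) := by
  ext x
  rw [mem_mvS, mem_sd, mem_sd, mem_mvS, mem_mvS]

theorem mvS_one (A : Finset Ω) : mvS (1 : Γ) A = A := by
  ext x
  rw [mem_mvS, inv_one, one_smul]

theorem mvS_mul (g h : Γ) (A : Finset Ω) : mvS (g * h) A = mvS g (mvS h A) := by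
  ext x
  rw [mem_mvS, mem_mvS, mem_mvS, mul_inv_rev, mul_smul]

theorem mvS_subset (g : Γ) {A B : Finset Ω} : mvS g A ⊆ mvS g B ↔ A ⊆ B := by
  constructor
  · intro h x hx
    have : g • x ∈ mvS g B := h (mem_mvS.2 (by rwa [inv_smul_smul]))
    rwa [mem_mvS, inv_smul_smul] at this
  · intro h x hx
    exact mem_mvS.2 (h (mem_mvS.1 hx))

theorem card_mvS (g : Γ) (A : Finset Ω) : (mvS g A).card = A.card :=
  Finset.card_image_of_injective _ (MulAction.injective g)

/-- the affine action -/
@[reducible] def affAct (S : Γ → Finset Ω)
    (hS : ∀ g h, S (g * h) = symmDiff (S g) ((S h).image (fun w => g • w))) :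
    MulAction Γ (Finset Ω) where
  smul g A := symmDiff (mvS g A) (S g)
  one_smul A := by
    change symmDiff (mvS 1 A) (S 1) = A
    have h1 : S 1 = ⊥ := by
      have h := hS 1 1
      change S (1 * 1) = symmDiff (S 1) (mvS 1 (S 1)) at h
      rw [mvS_one, symmDiff_self, mul_one] at h
      exact h
    rw [mvS_one, h1, symmDiff_bot]
  mul_smul g h A := by
    change symmDiff (mvS (g * h) A) (S (g * h)) =
      symmDiff (mvS g (symmDiff (mvS h A) (S h))) (S g)
    have h1 : S (g * h) = symmDiff (S g) (mvS g (S h)) := hS g h
    rw [h1, mvS_mul, mvS_sd, symmDiff_assoc, symmDiff_comm (S g)]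

end H47

/-- Module `ACT`. -/
theorem act : S_ACT := by
  intro Γ _ Ω _ _ S hS hfin
  refine ⟨Finset Ω, icubes Ω, affAct S hS, ⟨⟨(icv Ω).1, icf Ω, (icv Ω).2⟩, icl Ω, ics Ω⟩, ?_, ?_⟩
  · intro g C hC
    obtain ⟨A, F, rfl⟩ := mem_icubes.1 hC
    refine mem_icubes.2 ⟨symmDiff (mvS g A) (S g), mvS g F, ?_⟩
    let _ := affAct S hS
    ext B
    simp only [Set.mem_image, Set.mem_ofPred_eq]
    have key : ∀ B' : Finset Ω, symmDiff (symmDiff (mvS g A) (S g)) (symmDiff (mvS g B') (S g)) =
        mvS g (symmDiff A B') := by
      intro B'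
      rw [mvS_sd, symmDiff_comm (mvS g B') (S g), symmDiff_assoc, symmDiff_symmDiff_cancel_left]
    constructor
    · rintro ⟨B', hB', rfl⟩
      change symmDiff (symmDiff (mvS g A) (S g)) (symmDiff (mvS g B') (S g)) ⊆ mvS g F
      rw [key]
      exact (mvS_subset g).2 hB'
    · intro h
      have e : symmDiff (mvS g (g⁻¹ • B)) (S g) = B := smul_inv_smul g B
      refine ⟨g⁻¹ • B, ?_, smul_inv_smul g B⟩
      rw [← mvS_subset g, ← key, e]
      exact h
  · intro v R
    apply (hfin (R + 2 * v.card)).subset
    intro g hg
    simp only [Set.mem_ofPred_eq] at hg ⊢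
    rw [icd Ω] at hg
    change (symmDiff v (symmDiff (mvS g v) (S g))).card ≤ R at hg
    have e : S g = symmDiff (symmDiff (mvS g v) v) (symmDiff v (symmDiff (mvS g v) (S g))) := by
      rw [symmDiff_assoc, symmDiff_symmDiff_cancel_left, symmDiff_symmDiff_cancel_left]
    have h1 := card_sd_le (symmDiff (mvS g v) v) (symmDiff v (symmDiff (mvS g v) (S g)))
    rw [← e] at h1
    have h2 := card_sd_le (mvS g v) v
    rw [card_mvS] at h2
    omega

end TA
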